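import Mathlib

set_option autoImplicit false

namespace Pool.Agent.Results.MP_8bd6c4_co.CTwo

open SimpleGraph

/-- `G` decomposes into `k` trees: there are `k` subgraphs of `G`, each of them a tree, such that
every edge of `G` lies in exactly one of them. -/
def TreeDecomposes {V : Type} (G : SimpleGraph V) (k : ℕ) : Prop :=
  ∃ T : Fin k → G.Subgraph, (∀ i, (T i).coe.IsTree) ∧
    ∀ e ∈ G.edgeSet, ∃! i, e ∈ (T i).edgeSet

/-- `tau G`: the least `k` such that `G` decomposes into `k` trees. -/
noncomputable def tau {V : Type} (G : SimpleGraph V) : ℕ := sInf {k | TreeDecomposes G k}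

/-- The vertex set of `G` can be partitioned into `k` sets, each of which induces a tree. -/
def TreePartitions {V : Type} (G : SimpleGraph V) (k : ℕ) : Prop :=
  ∃ c : V → Fin k, ∀ i, (G.induce {v | c v = i}).IsTree

/-- `tauP G`: the least `k` such that the vertex set of `G` can be partitioned into `k` sets, each
of which induces a tree. -/
noncomputable def tauP {V : Type} (G : SimpleGraph V) : ℕ := sInf {k | TreePartitions G k}

/-- The set of the values `tauP G / (tau G * n)` for `G` a connected graph on `n` vertices with at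
least one edge. -/
def ratios (n : ℕ) : Set ℝ :=
  {x | ∃ G : SimpleGraph (Fin n), G.Connected ∧ G.edgeSet.Nonempty ∧
    x = (tauP G : ℝ) / ((tau G : ℝ) * n)}

/-- The maximum (written as a supremum of a finite set) of `ratios n`. -/
noncomputable def maxRatio (n : ℕ) : ℝ := sSup (ratios n)

/-- The constant `c₂`. -/
noncomputable def c₂ : ℝ := Filter.limsup maxRatio Filter.atTop

/-! ### Trees from parent functions -/

theorem connected_of_parent {V : Type} (G : SimpleGraph V) (r : V) (rk : V → ℕ)
    (h1 : ∀ x, x ≠ r → ∃ y, G.Adj x y ∧ rk y < rk x) : G.Connected := by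
  have key : ∀ n, ∀ x, rk x = n → G.Reachable x r := by
    intro n
    induction n using Nat.strong_induction_on with
    | _ n ih =>
      intro x hx
      by_cases hxr : x = r
      · subst hxr; exact Reachable.refl _
      · obtain ⟨y, hy, hlt⟩ := h1 x hxr
        exact hy.reachable.trans (ih (rk y) (hx ▸ hlt) y rfl)
  have : Nonempty V := ⟨r⟩
  exact ⟨fun x y => (key _ x rfl).trans (key _ y rfl).symm⟩

theorem tree_of_parent {V : Type} [Finite V] (G : SimpleGraph V) (r : V) (p : V → V) (rk : V → ℕ)
    (h1 : ∀ x, x ≠ r → G.Adj x (p x) ∧ rk (p x) < rk x)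
    (h2 : ∀ x y, G.Adj x y → (x ≠ r ∧ y = p x) ∨ (y ≠ r ∧ x = p y)) : G.IsTree := by
  classical
  rw [isTree_iff_connected_and_card]
  refine ⟨connected_of_parent G r rk (fun x hx => ⟨p x, h1 x hx⟩), ?_⟩
  have hbij : Function.Bijective
      (fun x : {x : V // x ≠ r} => (⟨s(x.1, p x.1), (h1 x.1 x.2).1⟩ : G.edgeSet)) := by
    constructor
    · rintro ⟨x, hx⟩ ⟨y, hy⟩ hxy
      have h : s(x, p x) = s(y, p y) := congrArg Subtype.val hxy
      rw [Sym2.eq_iff] at h
      rcases h with ⟨h, -⟩ | ⟨ha, hb⟩
      · exact Subtype.ext h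
      · exfalso
        have e1 := (h1 x hx).2
        have e2 := (h1 y hy).2
        rw [← ha] at e2
        rw [hb] at e1
        omega
    · rintro ⟨e, he⟩
      induction e using Sym2.ind with
      | _ x y =>
        rcases h2 x y he with ⟨hx, hy⟩ | ⟨hy, hx⟩
        · exact ⟨⟨x, hx⟩, by subst hy; rfl⟩
        · refine ⟨⟨y, hy⟩, ?_⟩
          subst hx
          apply Subtype.ext
          exact Sym2.eq_swap
  rw [← Nat.card_eq_of_bijective _ hbij]
  have := Fintype.ofFinite V
  rw [Nat.card_eq_fintype_card, Nat.card_eq_fintype_card]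
  have : Fintype.card {x : V // x ≠ r} = Fintype.card V - 1 := by
    rw [Fintype.card_subtype_compl, Fintype.card_subtype_eq]
  have hpos : 0 < Fintype.card V := Fintype.card_pos_iff.mpr ⟨r⟩
  omega

/-! ### The upper bound for `tauP` -/

theorem exists_level {V : Type} (G : SimpleGraph V) (s : Set V) (hs : (G.induce s).Connected) :
    ∃ (r : V) (l : V → ℕ), r ∈ s ∧ (∀ x ∈ s, l x = 0 → x = r) ∧ l r = 0 ∧
      ∀ x ∈ s, x ≠ r → ∃ y ∈ s, G.Adj x y ∧ l y + 1 = l x := by
  classical
  obtain ⟨⟨r, hr⟩⟩ := hs.nonempty
  refine ⟨r, fun x => if h : x ∈ s then (G.induce s).dist ⟨x, h⟩ ⟨r, hr⟩ else 0, hr, ?_, ?_, ?_⟩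
  · intro x hx h0
    simp only [hx, dif_pos] at h0
    have := (hs.dist_eq_zero_iff).mp h0
    exact congrArg Subtype.val this
  · simp [hr]
  · intro x hx hxr
    obtain ⟨w, hw⟩ := hs.exists_walk_length_eq_dist ⟨x, hx⟩ ⟨r, hr⟩
    cases w with
    | nil => exact absurd rfl hxr
    | @cons _ y _ h q =>
      refine ⟨y.1, y.2, h, ?_⟩
      simp only [hx, y.2, dif_pos, Subtype.coe_eta]
      have h1 : (G.induce s).dist y ⟨r, hr⟩ ≤ q.length := dist_le q
      have h2 : (G.induce s).dist ⟨x, hx⟩ ⟨r, hr⟩ ≤ (G.induce s).dist y ⟨r, hr⟩ + 1 := by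
        obtain ⟨w', hw'⟩ := hs.exists_walk_length_eq_dist y ⟨r, hr⟩
        have := dist_le (Walk.cons h w')
        rw [Walk.length_cons, hw'] at this
        exact this
      rw [Walk.length_cons] at hw
      omega

theorem partition_set {V : Type} [Finite V] (G : SimpleGraph V) :
    ∀ n : ℕ, ∀ s : Set V, s.ncard = n → (G.induce s).Connected →
      ∃ k : ℕ, k ≤ (n + 1) / 2 ∧ ∃ c : V → ℕ, (∀ x ∈ s, c x < k) ∧
        ∀ j < k, (G.induce {x | x ∈ s ∧ c x = j}).IsTree := by
  classical
  intro n
  induction n using Nat.strong_induction_on with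
  | _ n ih =>
    intro s hsn hs
    obtain ⟨r, l, hr, hl0, hlr, hl⟩ := exists_level G s hs
    have hfin : s.Finite := Set.toFinite s
    -- it suffices to find a suitable set to remove
    have key : ∀ S : Set V, S ⊆ s → 2 ≤ S.ncard → (G.induce S).IsTree →
        (s \ S = ∅ ∨ (G.induce (s \ S)).Connected) →
        ∃ k : ℕ, k ≤ (n + 1) / 2 ∧ ∃ c : V → ℕ, (∀ x ∈ s, c x < k) ∧
          ∀ j < k, (G.induce {x | x ∈ s ∧ c x = j}).IsTree := by
      intro S hSs hS2 hST hcompl
      have hcard : (s \ S).ncard + S.ncard = s.ncard := Set.ncard_sdiff_add_ncard_of_subset hSs hfin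
      rcases hcompl with hempty | hconn
      · refine ⟨1, ?_, fun _ => 0, fun _ _ => Nat.one_pos, ?_⟩
        · omega
        · intro j hj
          have hj0 : j = 0 := by omega
          subst hj0
          have : {x | x ∈ s ∧ (0 : ℕ) = 0} = S := by
            ext x
            constructor
            · rintro ⟨hx, -⟩
              by_contra hxS
              have : x ∈ s \ S := ⟨hx, hxS⟩
              rw [hempty] at this
              exact this
            · intro hx
              exact ⟨hSs hx, rfl⟩
          rw [this]
          exact hST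
      · obtain ⟨k', hk', c', hc', ht'⟩ := ih (s \ S).ncard (by omega) (s \ S) rfl hconn
        refine ⟨k' + 1, by omega, fun x => if x ∈ S then k' else c' x, ?_, ?_⟩
        · intro x hx
          by_cases hxS : x ∈ S
          · simp [hxS]
          · simp only [hxS, if_neg, not_false_eq_true]
            have := hc' x ⟨hx, hxS⟩
            omega
        · intro j hj
          by_cases hjk : j = k'
          · have : {x | x ∈ s ∧ (if x ∈ S then k' else c' x) = j} = S := by
              ext x
              constructor
              · rintro ⟨hx, hx2⟩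
                by_contra hxS
                rw [if_neg hxS] at hx2
                have := hc' x ⟨hx, hxS⟩
                omega
              · intro hx
                exact ⟨hSs hx, by rw [if_pos hx, hjk]⟩
            rw [this]
            exact hST
          · have : {x | x ∈ s ∧ (if x ∈ S then k' else c' x) = j} =
                {x | x ∈ s \ S ∧ c' x = j} := by
              ext x
              constructor
              · rintro ⟨hx, hx2⟩
                by_cases hxS : x ∈ S
                · rw [if_pos hxS] at hx2
                  exact absurd hx2.symm hjk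
                · rw [if_neg hxS] at hx2
                  exact ⟨⟨hx, hxS⟩, hx2⟩
              · rintro ⟨⟨hx, hxS⟩, hx2⟩
                exact ⟨hx, by rw [if_neg hxS]; exact hx2⟩
            rw [this]
            exact ht' j (by omega)
    -- the maximal level
    obtain ⟨w, hw, hmax⟩ := Set.exists_max_image s l hfin ⟨r, hr⟩
    by_cases hd : l w = 0
    · -- a single vertex
      have hall : ∀ x ∈ s, x = r := fun x hx => hl0 x hx (by have := hmax x hx; omega)
      have hsr : s = {r} := by
        ext x
        constructor
        · intro hx; exact hall x hx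
        · intro hx; rw [Set.mem_singleton_iff.mp hx]; exact hr
      have hn : n = 1 := by rw [← hsn, hsr, Set.ncard_singleton]
      refine ⟨1, by omega, fun _ => 0, fun _ _ => Nat.one_pos, ?_⟩
      intro j hj
      have hj0 : j = 0 := by omega
      subst hj0
      have : Subsingleton ↥{x | x ∈ s ∧ (0 : ℕ) = 0} := by
        constructor
        rintro ⟨a, ha, -⟩ ⟨b, hb, -⟩
        exact Subtype.ext ((hall a ha).trans (hall b hb).symm)
      have : Nonempty ↥{x | x ∈ s ∧ (0 : ℕ) = 0} := ⟨⟨r, hr, rfl⟩⟩
      exact IsTree.of_subsingleton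
    · by_cases hA : ∃ w1 ∈ s, ∃ w2 ∈ s, l w1 = l w ∧ l w2 = l w ∧ G.Adj w1 w2
      · obtain ⟨w1, hw1, w2, hw2, hl1, hl2, hadj⟩ := hA
        refine key {w1, w2} ?_ ?_ ?_ ?_
        · intro x hx
          rcases hx with rfl | hx
          · exact hw1
          · rw [Set.mem_singleton_iff.mp hx]; exact hw2
        · rw [Set.ncard_pair hadj.ne]
        · refine tree_of_parent _ ⟨w1, by simp⟩ (fun _ => ⟨w1, by simp⟩)
            (fun x => if x.1 = w1 then 0 else 1) ?_ ?_
          · rintro ⟨x, hx⟩ hne
            have hxne : x ≠ w1 := fun h => hne (Subtype.ext h)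
            have hx2 : x = w2 := by
              rcases hx with h | h
              · exact absurd h hxne
              · exact h
            subst hx2
            refine ⟨hadj.symm, ?_⟩
            simp [hxne]
          · rintro ⟨x, hx⟩ ⟨y, hy⟩ hxy
            have hxy' : G.Adj x y := hxy
            rcases hx with hx | hx
            · right
              have hyne : y ≠ w1 := fun h => hxy'.ne (hx.trans h.symm)
              exact ⟨fun h => hyne (congrArg Subtype.val h), Subtype.ext hx⟩
            · left
              have hx' : x = w2 := hx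
              have hyw : y = w1 := by
                rcases hy with h | h
                · exact h
                · exact absurd (hx'.trans (Set.mem_singleton_iff.mp h).symm) hxy'.ne
              refine ⟨fun h => ?_, Subtype.ext hyw⟩
              have : x = w1 := congrArg Subtype.val h
              exact hxy'.ne (this.trans hyw.symm)
        · right
          have hrt : r ∈ s \ {w1, w2} := by
            refine ⟨hr, ?_⟩
            rintro (h | h)
            · rw [← h, hlr] at hl1; exact hd hl1.symm
            · rw [← Set.mem_singleton_iff.mp h, hlr] at hl2; exact hd hl2.symm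
          refine connected_of_parent _ ⟨r, hrt⟩ (fun x => l x.1) ?_
          rintro ⟨x, hxs, hx⟩ hne
          have hxr : x ≠ r := fun h => hne (Subtype.ext h)
          obtain ⟨y, hy, hadj', hly⟩ := hl x hxs hxr
          have hlx := hmax x hxs
          refine ⟨⟨y, hy, ?_⟩, hadj', ?_⟩
          · rintro (h | h)
            · rw [h] at hly; omega
            · rw [Set.mem_singleton_iff.mp h] at hly; omega
          · change l y < l x
            omega
      · -- no two adjacent vertices on the last level
        have hB : ∀ x ∈ s, ∀ y ∈ s, l x = l w → l y = l w → ¬ G.Adj x y :=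
          fun x hx y hy h1 h2 h3 => hA ⟨x, hx, y, hy, h1, h2, h3⟩
        have hwr : w ≠ r := fun h => hd (h ▸ hlr)
        obtain ⟨p, hp, hwp, hlp⟩ := hl w hw hwr
        set W : Set V := {x | x ∈ s ∧ l x = l w ∧ G.Adj x p ∧
          (x = w ∨ ∀ y ∈ s, G.Adj x y → l y + 1 = l w → y = p)} with hW
        have hwW : w ∈ W := ⟨hw, rfl, hwp, Or.inl rfl⟩
        have hpW : p ∉ W := fun h => by have := h.2.1; omega
        refine key (insert p W) ?_ ?_ ?_ ?_
        · intro x hx
          rcases hx with rfl | hx
          · exact hp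
          · exact hx.1
        · have hWf : W.Finite := Set.toFinite W
          rw [Set.ncard_insert_of_notMem hpW hWf]
          have : 0 < W.ncard := (Set.ncard_pos hWf).mpr ⟨w, hwW⟩
          omega
        · refine tree_of_parent _ ⟨p, by simp⟩ (fun _ => ⟨p, by simp⟩)
            (fun x => if x.1 = p then 0 else 1) ?_ ?_
          · rintro ⟨x, hx⟩ hne
            have hxne : x ≠ p := fun h => hne (Subtype.ext h)
            have hxW : x ∈ W := by
              rcases hx with h | h
              · exact absurd h hxne
              · exact h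
            refine ⟨hxW.2.2.1, ?_⟩
            simp [hxne]
          · rintro ⟨x, hx⟩ ⟨y, hy⟩ hxy
            have hxy' : G.Adj x y := hxy
            rcases hx with hx | hx
            · right
              have hyne : y ≠ p := fun h => hxy'.ne (hx.trans h.symm)
              exact ⟨fun h => hyne (congrArg Subtype.val h), Subtype.ext hx⟩
            · left
              have hxne : x ≠ p := fun h => hpW (h ▸ hx)
              refine ⟨fun h => hxne (congrArg Subtype.val h), ?_⟩
              rcases hy with hy | hy
              · exact Subtype.ext hy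
              · exact absurd hxy' (hB x hx.1 y hy.1 hx.2.1 hy.2.1)
        · by_cases hpr : p = r
          · left
            ext x
            simp only [Set.mem_sdiff, Set.mem_insert_iff, Set.mem_empty_iff_false, iff_false,
              not_and, not_not]
            intro hx
            by_cases hxp : x = p
            · exact Or.inl hxp
            · right
              have hlw : l w = 1 := by
                rw [hpr, hlr] at hlp
                omega
              have hxr : x ≠ r := fun h => hxp (h.trans hpr.symm)
              have hlx := hmax x hx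
              obtain ⟨y, hy, hxy, hly⟩ := hl x hx hxr
              have hy0 : l y = 0 := by omega
              have hyr := hl0 y hy hy0
              refine ⟨hx, by omega, ?_, Or.inr ?_⟩
              · rw [hpr, ← hyr]; exact hxy
              · intro z hz _ hlz
                rw [hpr]
                exact hl0 z hz (by omega)
          · right
            have hrt : r ∈ s \ insert p W := by
              refine ⟨hr, ?_⟩
              rintro (h | h)
              · exact hpr h.symm
              · have := h.2.1
                rw [hlr] at this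
                exact hd this.symm
            refine connected_of_parent _ ⟨r, hrt⟩ (fun x => l x.1) ?_
            rintro ⟨x, hxs, hx⟩ hne
            have hxr : x ≠ r := fun h => hne (Subtype.ext h)
            have hxp : x ≠ p := fun h => hx (Or.inl h)
            have hxW : x ∉ W := fun h => hx (Or.inr h)
            obtain ⟨y, hy, hadj', hly⟩ := hl x hxs hxr
            have hlx := hmax x hxs
            by_cases hxd : l x = l w
            · -- last level
              by_cases hyp : y = p
              · subst hyp
                have : ¬ (x = w ∨ ∀ z ∈ s, G.Adj x z → l z + 1 = l w → z = y) :=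
                  fun h => hxW ⟨hxs, hxd, hadj', h⟩
                push Not at this
                obtain ⟨-, z, hz, hxz, hlz, hzy⟩ := this
                refine ⟨⟨z, hz, ?_⟩, hxz, ?_⟩
                · rintro (h | h)
                  · exact hzy h
                  · have := h.2.1; omega
                · change l z < l x
                  omega
              · refine ⟨⟨y, hy, ?_⟩, hadj', ?_⟩
                · rintro (h | h)
                  · exact hyp h
                  · have := h.2.1; omega
                · change l y < l x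
                  omega
            · refine ⟨⟨y, hy, ?_⟩, hadj', ?_⟩
              · rintro (h | h)
                · rw [h] at hly; omega
                · have := h.2.1; omega
              · change l y < l x
                omega

theorem exists_treePartition {n : ℕ} (G : SimpleGraph (Fin n)) (hG : G.Connected) :
    ∃ k ≤ (n + 1) / 2, TreePartitions G k := by
  have huniv : (G.induce Set.univ).Connected := by
    have e : G.induce Set.univ ≃g G := induceUnivIso G
    exact (e.connected_iff).mpr hG
  obtain ⟨k, hk, c, hc, ht⟩ := partition_set G n Set.univ (by simp [Set.ncard_univ]) huniv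
  refine ⟨k, hk, fun v => ⟨c v, hc v trivial⟩, ?_⟩
  intro i
  have : {v | (⟨c v, hc v trivial⟩ : Fin k) = i} = {x | x ∈ (Set.univ : Set (Fin n)) ∧ c x = i.1} := by
    ext x
    simp [Fin.ext_iff]
  rw [this]
  exact ht i.1 i.2

/-! ### The windmill -/

/-- The windmill on `Fin n`: the vertex `0` is joined to all the others, and `2 i + 1` is joined to
`2 i + 2`. -/
def windmill (n : ℕ) : SimpleGraph (Fin n) where
  Adj x y := x ≠ y ∧ (x.val = 0 ∨ y.val = 0 ∨ (x.val - 1) / 2 = (y.val - 1) / 2)
  symm := ⟨by
    rintro x y ⟨h1, h2⟩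
    refine ⟨h1.symm, ?_⟩
    rcases h2 with h | h | h
    · exact Or.inr (Or.inl h)
    · exact Or.inl h
    · exact Or.inr (Or.inr h.symm)⟩
  loopless := ⟨fun _ h => h.1 rfl⟩

theorem windmill_connected {n : ℕ} (hn : 0 < n) : (windmill n).Connected := by
  refine connected_of_parent _ (⟨0, hn⟩ : Fin n) (fun x => x.val) ?_
  intro x hx
  refine ⟨⟨0, hn⟩, ⟨hx, Or.inr (Or.inl rfl)⟩, ?_⟩
  have : x.val ≠ 0 := fun h => hx (Fin.ext h)
  change 0 < x.val
  omega

/-- The first tree. -/
def sub0 (n : ℕ) : (windmill n).Subgraph where
  verts := Set.univ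
  Adj x y := (windmill n).Adj x y ∧ (x.val % 2 = 1 ∨ y.val % 2 = 1)
  adj_sub h := h.1
  edge_vert _ := trivial
  symm := ⟨fun _ _ h => ⟨h.1.symm, h.2.symm⟩⟩

/-- The second tree. -/
def sub1 (n : ℕ) : (windmill n).Subgraph where
  verts := {x | x.val % 2 = 0}
  Adj x y := (windmill n).Adj x y ∧ (x.val % 2 = 0 ∧ y.val % 2 = 0)
  adj_sub h := h.1
  edge_vert h := h.2.1
  symm := ⟨fun _ _ h => ⟨h.1.symm, h.2.symm⟩⟩

theorem sub0_tree {n : ℕ} (hn : 0 < n) : (sub0 n).coe.IsTree := by
  refine tree_of_parent _ (⟨⟨0, hn⟩, trivial⟩ : (sub0 n).verts)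
    (fun x => if x.1.val % 2 = 1 then ⟨⟨0, hn⟩, trivial⟩ else
      ⟨⟨x.1.val - 1, by have := x.1.isLt; omega⟩, trivial⟩) (fun x => x.1.val) ?_ ?_
  · rintro ⟨x, hx⟩ hne
    have hx0 : x.val ≠ 0 := fun h => hne (Subtype.ext (Fin.ext h))
    by_cases hodd : x.val % 2 = 1
    · rw [if_pos hodd]
      refine ⟨⟨⟨fun h => hx0 (congrArg Fin.val h), Or.inr (Or.inl rfl)⟩, Or.inl hodd⟩, ?_⟩
      change 0 < x.val
      omega
    · rw [if_neg hodd]
      refine ⟨⟨⟨fun h => ?_, Or.inr (Or.inr ?_)⟩, Or.inr ?_⟩, ?_⟩
      · have h' : x.val = x.val - 1 := congrArg Fin.val h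
        omega
      · change (x.val - 1) / 2 = (x.val - 1 - 1) / 2
        omega
      · change (x.val - 1) % 2 = 1
        omega
      · change x.val - 1 < x.val
        omega
  · have key : ∀ x y : Fin n, (windmill n).Adj x y → x.val % 2 = 1 → y.val % 2 = 1 → False := by
      rintro x y ⟨h1, h2⟩ hx hy
      apply h1
      apply Fin.ext
      omega
    have key2 : ∀ x y : Fin n, (windmill n).Adj x y → x.val % 2 = 1 → y.val ≠ 0 →
        x.val = y.val - 1 := by
      rintro x y ⟨h1, h2⟩ hx hy
      have : x.val ≠ y.val := fun h => h1 (Fin.ext h)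
      omega
    rintro ⟨x, hx⟩ ⟨y, hy⟩ ⟨hxy, hor⟩
    change (windmill n).Adj x y at hxy
    change x.val % 2 = 1 ∨ y.val % 2 = 1 at hor
    rcases hor with hodd | hodd
    · by_cases hy0 : y.val = 0
      · left
        refine ⟨fun h => ?_, ?_⟩
        · have : x.val = 0 := congrArg (fun z => z.1.val) h
          omega
        · apply Subtype.ext
          rw [if_pos hodd]
          exact Fin.ext hy0
      · right
        refine ⟨fun h => ?_, ?_⟩
        · have : y.val = 0 := congrArg (fun z => z.1.val) h
          omega
        · apply Subtype.ext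
          have hyo : ¬ y.val % 2 = 1 := fun h => key x y hxy hodd h
          rw [if_neg hyo]
          exact Fin.ext (key2 x y hxy hodd hy0)
    · by_cases hx0 : x.val = 0
      · right
        refine ⟨fun h => ?_, ?_⟩
        · have : y.val = 0 := congrArg (fun z => z.1.val) h
          omega
        · apply Subtype.ext
          rw [if_pos hodd]
          exact Fin.ext hx0
      · left
        refine ⟨fun h => ?_, ?_⟩
        · have : x.val = 0 := congrArg (fun z => z.1.val) h
          omega
        · apply Subtype.ext
          have hxo : ¬ x.val % 2 = 1 := fun h => key x y hxy h hodd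
          rw [if_neg hxo]
          exact Fin.ext (key2 y x hxy.symm hodd hx0)

theorem sub1_tree {n : ℕ} (hn : 0 < n) : (sub1 n).coe.IsTree := by
  have h0 : (⟨0, hn⟩ : Fin n) ∈ (sub1 n).verts := rfl
  have key : ∀ x y : Fin n, (windmill n).Adj x y → x.val % 2 = 0 → y.val % 2 = 0 →
      x.val = 0 ∨ y.val = 0 := by
    rintro x y ⟨h1, h2⟩ hx hy
    have : x.val ≠ y.val := fun h => h1 (Fin.ext h)
    omega
  refine tree_of_parent _ (⟨⟨0, hn⟩, h0⟩ : (sub1 n).verts)
    (fun _ => ⟨⟨0, hn⟩, h0⟩) (fun x => x.1.val) ?_ ?_
  · rintro ⟨x, hx⟩ hne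
    have hx0 : x.val ≠ 0 := fun h => hne (Subtype.ext (Fin.ext h))
    refine ⟨⟨⟨fun h => hx0 (congrArg Fin.val h), Or.inr (Or.inl rfl)⟩, hx, rfl⟩, ?_⟩
    change 0 < x.val
    omega
  · rintro ⟨x, hx⟩ ⟨y, hy⟩ ⟨hxy, -⟩
    change (windmill n).Adj x y at hxy
    change x.val % 2 = 0 at hx
    change y.val % 2 = 0 at hy
    rcases key x y hxy hx hy with h | h
    · right
      refine ⟨fun h' => ?_, Subtype.ext (Fin.ext h)⟩
      have : y.val = 0 := congrArg (fun z => z.1.val) h'
      exact hxy.1 (Fin.ext (h.trans this.symm))
    · left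
      refine ⟨fun h' => ?_, Subtype.ext (Fin.ext h)⟩
      have : x.val = 0 := congrArg (fun z => z.1.val) h'
      exact hxy.1 (Fin.ext (this.trans h.symm))

theorem windmill_decomposes {n : ℕ} (hn : 0 < n) : TreeDecomposes (windmill n) 2 := by
  refine ⟨fun i => if i = 0 then sub0 n else sub1 n, ?_, ?_⟩
  · intro i
    change (if i = 0 then sub0 n else sub1 n).coe.IsTree
    by_cases hi : i = 0
    · rw [if_pos hi]
      exact sub0_tree hn
    · rw [if_neg hi]
      exact sub1_tree hn
  · intro e he
    induction e using Sym2.ind with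
    | _ x y =>
      by_cases h : x.val % 2 = 1 ∨ y.val % 2 = 1
      · refine ⟨0, ?_, ?_⟩
        · exact ⟨he, h⟩
        · intro j hj
          by_contra hj0
          change s(x, y) ∈ (if j = 0 then sub0 n else sub1 n).edgeSet at hj
          rw [if_neg hj0] at hj
          have hj' : (windmill n).Adj x y ∧ (x.val % 2 = 0 ∧ y.val % 2 = 0) := hj
          omega
      · refine ⟨1, ?_, ?_⟩
        · have h1 : x.val % 2 = 0 ∧ y.val % 2 = 0 := by omega
          exact ⟨he, h1⟩
        · intro j hj
          by_contra hj1
          have hj0 : j = 0 := by omega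
          change s(x, y) ∈ (if j = 0 then sub0 n else sub1 n).edgeSet at hj
          rw [if_pos hj0] at hj
          exact h hj.2

theorem windmill_partition_lower {n k : ℕ} (hn : 0 < n) (h : TreePartitions (windmill n) k) :
    (n + 1) / 2 ≤ k := by
  classical
  obtain ⟨c, hc⟩ := h
  set z : Fin n := ⟨0, hn⟩ with hz
  -- in every full block there is a vertex outside the class of `0`
  have h1 : ∀ i : Fin ((n - 1) / 2), ∃ x : Fin n, x.val ≠ 0 ∧ (x.val - 1) / 2 = i.val ∧ c x ≠ c z := by
    intro i
    have hi := i.isLt
    by_contra hcon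
    push Not at hcon
    have ha : 2 * i.val + 1 < n := by omega
    have hb : 2 * i.val + 2 < n := by omega
    have hca := hcon ⟨2 * i.val + 1, ha⟩ (by simp) (by simp)
    have hcb := hcon ⟨2 * i.val + 2, hb⟩ (by simp) (by simp; omega)
    have hac := (hc (c z)).isAcyclic.cliqueFree le_rfl
    refine hac {⟨z, rfl⟩, ⟨⟨2 * i.val + 1, ha⟩, hca⟩, ⟨⟨2 * i.val + 2, hb⟩, hcb⟩} ?_
    rw [is3Clique_triple_iff]
    refine ⟨⟨?_, Or.inl rfl⟩, ⟨?_, Or.inl rfl⟩, ⟨?_, Or.inr (Or.inr ?_)⟩⟩
    · intro h
      have : (0 : ℕ) = 2 * i.val + 1 := congrArg Fin.val h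
      omega
    · intro h
      have : (0 : ℕ) = 2 * i.val + 2 := congrArg Fin.val h
      omega
    · intro h
      have : 2 * i.val + 1 = 2 * i.val + 2 := congrArg Fin.val h
      omega
    · change (2 * i.val + 1 - 1) / 2 = (2 * i.val + 2 - 1) / 2
      omega
  choose f hf0 hf1 hf2 using h1
  -- classes which do not contain `0` stay in a block
  have h2 : ∀ x y : Fin n, c x = c y → c x ≠ c z → (x.val - 1) / 2 = (y.val - 1) / 2 := by
    intro x y hxy hxz
    have hconn := (hc (c x)).connected
    have hr : ((windmill n).induce {v | c v = c x}).Reachable ⟨x, rfl⟩ ⟨y, hxy.symm⟩ :=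
      hconn.preconnected _ _
    obtain ⟨w⟩ := hr
    have key : ∀ (a b : {v | c v = c x}) (w : ((windmill n).induce {v | c v = c x}).Walk a b),
        (a.1.val - 1) / 2 = (b.1.val - 1) / 2 := by
      intro a b w
      induction w with
      | nil => rfl
      | @cons u v w' h q ih =>
        rw [← ih]
        have hadj : (windmill n).Adj u.1 v.1 := h
        have hu : u.1.val ≠ 0 := by
          intro h0
          have : u.1 = z := Fin.ext h0
          apply hxz
          rw [← this]
          exact u.2.symm
        have hv : v.1.val ≠ 0 := by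
          intro h0
          have : v.1 = z := Fin.ext h0
          apply hxz
          rw [← this]
          exact v.2.symm
        rcases hadj.2 with h | h | h
        · exact absurd h hu
        · exact absurd h hv
        · exact h
    exact key _ _ w
  have hinj : Function.Injective
      (fun o : Option (Fin ((n - 1) / 2)) => o.elim (c z) (fun i => c (f i))) := by
    intro a b hab
    cases a with
    | none =>
      cases b with
      | none => rfl
      | some j => exact absurd hab.symm (hf2 j)
    | some i =>
      cases b with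
      | none => exact absurd hab (hf2 i)
      | some j =>
        have h : c (f i) = c (f j) := hab
        have := h2 _ _ h (hf2 i)
        rw [hf1, hf1] at this
        exact congrArg some (Fin.ext this)
  have hcard := Fintype.card_le_of_injective _ hinj
  rw [Fintype.card_option, Fintype.card_fin, Fintype.card_fin] at hcard
  omega

/-! ### Small values of `tau` -/

theorem partition_one_of_decompose_one {n : ℕ} (G : SimpleGraph (Fin n)) (hG : G.Connected)
    (hne : G.edgeSet.Nonempty) (h : TreeDecomposes G 1) : TreePartitions G 1 := by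
  obtain ⟨T, hT, hE⟩ := h
  have hadj : ∀ x y, G.Adj x y → (T 0).Adj x y := by
    intro x y hxy
    obtain ⟨i, hi, -⟩ := hE s(x, y) hxy
    have : i = 0 := Subsingleton.elim _ _
    subst this
    exact hi
  have hnt : Nontrivial (Fin n) := by
    obtain ⟨e, he⟩ := hne
    induction e using Sym2.ind with
    | _ x y => exact ⟨x, y, G.ne_of_adj he⟩
  have hverts : ∀ x, x ∈ (T 0).verts := by
    intro x
    obtain ⟨y, hy⟩ := hG.preconnected.exists_adj_of_nontrivial x
    exact (T 0).edge_vert (hadj x y hy)
  refine ⟨fun _ => 0, ?_⟩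
  intro i
  have hset : {v : Fin n | (0 : Fin 1) = i} = Set.univ := by
    ext v
    simp only [Set.mem_ofPred_eq, Set.mem_univ, iff_true]
    exact Subsingleton.elim _ _
  rw [hset]
  have e : G.induce Set.univ ≃g G := induceUnivIso G
  refine ⟨(e.connected_iff).mpr hG, ?_⟩
  let f : G.induce Set.univ →g (T 0).coe :=
    { toFun := fun x => ⟨x.1, hverts x.1⟩
      map_rel' := fun {a b} hab => hadj a.1 b.1 hab }
  refine IsAcyclic.comap f ?_ (hT 0).isAcyclic
  intro a b hab
  have hab' : a.1 = b.1 := congrArg (fun z : (T 0).verts => z.1) hab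
  exact Subtype.ext hab'

theorem tauP_le {n : ℕ} (G : SimpleGraph (Fin n)) (hG : G.Connected) : tauP G ≤ (n + 1) / 2 := by
  obtain ⟨k, hk, hp⟩ := exists_treePartition G hG
  exact (Nat.sInf_le hp).trans hk

theorem tauP_windmill {n : ℕ} (hn : 0 < n) : tauP (windmill n) = (n + 1) / 2 := by
  apply le_antisymm (tauP_le _ (windmill_connected hn))
  obtain ⟨k, -, hp⟩ := exists_treePartition (windmill n) (windmill_connected hn)
  have hmem : tauP (windmill n) ∈ {k | TreePartitions (windmill n) k} := Nat.sInf_mem ⟨k, hp⟩
  exact windmill_partition_lower hn hmem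

theorem tauP_le_one {n : ℕ} (G : SimpleGraph (Fin n)) (hG : G.Connected)
    (hne : G.edgeSet.Nonempty) (h : tau G = 1) : tauP G ≤ 1 := by
  have hmem : tau G ∈ {k | TreeDecomposes G k} := by
    apply Nat.sInf_mem
    by_contra hemp
    rw [Set.not_nonempty_iff_eq_empty] at hemp
    have h0 : tau G = 0 := by
      unfold tau
      rw [hemp, Nat.sInf_empty]
    omega
  rw [h] at hmem
  exact Nat.sInf_le (partition_one_of_decompose_one G hG hne hmem)

theorem windmill_edge {n : ℕ} (hn : 2 ≤ n) : (windmill n).edgeSet.Nonempty := by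
  refine ⟨s(⟨0, by omega⟩, ⟨1, by omega⟩), ?_⟩
  refine ⟨?_, Or.inl rfl⟩
  intro h
  have : (0 : ℕ) = 1 := congrArg Fin.val h
  omega

theorem tau_windmill {n : ℕ} (hn : 3 ≤ n) : tau (windmill n) = 2 := by
  have hle : tau (windmill n) ≤ 2 := Nat.sInf_le (windmill_decomposes (by omega))
  have hmem : tau (windmill n) ∈ {k | TreeDecomposes (windmill n) k} :=
    Nat.sInf_mem ⟨2, windmill_decomposes (by omega)⟩
  have h0 : tau (windmill n) ≠ 0 := by
    intro h0
    rw [h0] at hmem
    obtain ⟨T, -, hE⟩ := hmem
    obtain ⟨e, he⟩ := windmill_edge (n := n) (by omega)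
    obtain ⟨i, -⟩ := hE e he
    exact i.elim0
  have h1 : tau (windmill n) ≠ 1 := by
    intro h1
    have := tauP_le_one _ (windmill_connected (by omega)) (windmill_edge (by omega)) h1
    rw [tauP_windmill (by omega)] at this
    omega
  omega

/-! ### The result -/

theorem isGreatest_ratios {n : ℕ} (hn : 3 ≤ n) :
    IsGreatest (ratios n) ((((n + 1) / 2 : ℕ) : ℝ) / (2 * (n : ℝ))) := by
  have hn0 : (0 : ℝ) < n := by
    have : 0 < n := by omega
    exact_mod_cast this
  constructor
  · refine ⟨windmill n, windmill_connected (by omega), windmill_edge (by omega), ?_⟩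
    rw [tauP_windmill (by omega), tau_windmill hn]
    norm_num
  · rintro x ⟨G, hG, hne, rfl⟩
    have hP := tauP_le G hG
    have hPR : (tauP G : ℝ) ≤ (((n + 1) / 2 : ℕ) : ℝ) := by exact_mod_cast hP
    have h2 : (2 : ℝ) ≤ (((n + 1) / 2 : ℕ) : ℝ) := by
      have : 2 ≤ (n + 1) / 2 := by omega
      exact_mod_cast this
    rcases Nat.lt_or_ge (tau G) 2 with hlt | hge
    · have hcases : tau G = 0 ∨ tau G = 1 := by omega
      rcases hcases with h | h
      · rw [h]
        simp only [Nat.cast_zero, zero_mul, div_zero]
        positivity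
      · have h1 := tauP_le_one G hG hne h
        have h1R : (tauP G : ℝ) ≤ 1 := by exact_mod_cast h1
        rw [h, Nat.cast_one, one_mul, div_le_div_iff₀ hn0 (by positivity)]
        nlinarith
    · have hgeR : (2 : ℝ) ≤ (tau G : ℝ) := by exact_mod_cast hge
      apply div_le_div₀ (by positivity) hPR (by positivity)
      exact mul_le_mul_of_nonneg_right hgeR hn0.le

theorem maxRatio_eq {n : ℕ} (hn : 3 ≤ n) :
    maxRatio n = (((n + 1) / 2 : ℕ) : ℝ) / (2 * (n : ℝ)) :=
  (isGreatest_ratios hn).csSup_eq

theorem tendsto_maxRatio : Filter.Tendsto maxRatio Filter.atTop (nhds (1 / 4)) := by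
  have hlim : Filter.Tendsto (fun n : ℕ => (1 / 4 : ℝ) + (1 / 4) * (1 / (n : ℝ))) Filter.atTop
      (nhds (1 / 4 + (1 / 4) * 0)) :=
    tendsto_const_nhds.add (tendsto_const_nhds.mul tendsto_one_div_atTop_nhds_zero_nat)
  rw [mul_zero, add_zero] at hlim
  refine tendsto_of_tendsto_of_tendsto_of_le_of_le' tendsto_const_nhds hlim ?_ ?_
  · filter_upwards [Filter.eventually_ge_atTop 3] with n hn
    have hn0 : (0 : ℝ) < n := by
      have : 0 < n := by omega
      exact_mod_cast this
    rw [maxRatio_eq hn, div_le_div_iff₀ (by norm_num) (by positivity)]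
    have h : n ≤ 2 * ((n + 1) / 2) := by omega
    have hR : (n : ℝ) ≤ 2 * (((n + 1) / 2 : ℕ) : ℝ) := by exact_mod_cast h
    linarith
  · filter_upwards [Filter.eventually_ge_atTop 3] with n hn
    have hn0 : (0 : ℝ) < n := by
      have : 0 < n := by omega
      exact_mod_cast this
    rw [maxRatio_eq hn]
    have h : 2 * ((n + 1) / 2) ≤ n + 1 := by omega
    have hR : 2 * (((n + 1) / 2 : ℕ) : ℝ) ≤ (n : ℝ) + 1 := by exact_mod_cast h
    rw [div_le_iff₀ (by positivity)]
    have : (1 / 4 + 1 / 4 * (1 / (n : ℝ))) * (2 * (n : ℝ)) = ((n : ℝ) + 1) / 2 := by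
      field_simp
      ring
    rw [this]
    linarith

/-- For every `n ≥ 3` the maximum of `tauP G / (tau G * n)` over the connected graphs `G` on `n`
vertices with at least one edge is `⌊(n + 1) / 2⌋ / (2 n)`; and `c₂ = 1 / 4`. -/
theorem result :
    (∀ n : ℕ, 3 ≤ n → IsGreatest (ratios n) ((((n + 1) / 2 : ℕ) : ℝ) / (2 * (n : ℝ)))) ∧
      c₂ = 1 / 4 :=
  ⟨fun _ hn => isGreatest_ratios hn, tendsto_maxRatio.limsup_eq⟩

end Pool.Agent.Results.MP_8bd6c4_co.CTwo
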